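import Pool.Agent.H67.PI.Emb

/-!
# Every finitely generated associative PI algebra embeds into a 2-generated one

Let `F` be an arbitrary field and `B` a finitely generated associative `F`-algebra (not assumed
unital) with a polynomial identity. Then `B` embeds into a 2-generated associative `F`-algebra with
a polynomial identity.

Proof. Let `a 0, …, a (k-1)` generate `B` and let `C` be the unitization of `B`. In the algebra of
`n × n` matrices over `C`, `n = k + 2`, put `x = ∑ E_{i,i+1}` (an upper shift) and
`y = E_{n-1,0} + ∑ a_j E_{j+1,0}`. Then `x^(n-1) y = E_{00}` and `E_{00} x^(j+1) y = a_j E_{00}`.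
The matrices over `C` satisfy a multilinear identity (codimension count).
-/

set_option autoImplicit false

namespace Pool.Agent.Results.MP_e0d88d_al.AssociativeTwoGenerated

open Pool.Agent.H67.PI Matrix

universe u v

/-- An associative algebra `A` over a field `F` (not assumed unital) is PI: some nonzero
noncommutative polynomial `f` with zero constant term vanishes on `A`. (It is evaluated in the
algebra `F ⊕ A` obtained by adjoining a unit.) -/
def IsPI (F : Type u) [Field F] (A : Type v) [NonUnitalRing A] [Module F A]
    [IsScalarTower F A A] [SMulCommClass F A A] : Prop :=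
  ∃ (n : ℕ) (f : FreeAlgebra F (Fin n)), f ≠ 0 ∧ FreeAlgebra.algebraMapInv f = 0 ∧
    ∀ a : Fin n → A,
      FreeAlgebra.lift F (fun i => (Unitization.inr (a i) : Unitization F A)) f = 0

/-- The algebra `A` (not assumed unital) is generated by `k` of its elements. -/
def Generated (F : Type u) [Field F] (A : Type v) [NonUnitalRing A] [Module F A]
    [IsScalarTower F A A] [SMulCommClass F A A] (k : ℕ) : Prop :=
  ∃ a : Fin k → A, NonUnitalAlgebra.adjoin F (Set.range a) = ⊤

section mat

variable {C : Type v} [Ring C] {n : ℕ}

/-- the upper shift by `s` -/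
def sh (C : Type v) [Ring C] (n s : ℕ) : Matrix (Fin n) (Fin n) C :=
  fun i j => if j.val = i.val + s then 1 else 0

theorem sh_zero : sh C n 0 = 1 := by
  ext i j
  rw [sh, Matrix.one_apply]
  by_cases h : i = j
  · subst h; simp
  · rw [if_neg h, if_neg]
    intro h'
    exact h (Fin.ext (by omega))

theorem sh_mul (s : ℕ) (y : Matrix (Fin n) (Fin n) C) (i j : Fin n) :
    (sh C n s * y) i j = if h : i.val + s < n then y ⟨i.val + s, h⟩ j else 0 := by
  rw [Matrix.mul_apply]
  split
  · rename_i h
    rw [Finset.sum_eq_single ⟨i.val + s, h⟩]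
    · simp [sh]
    · intro b _ hb
      have : ¬ b.val = i.val + s := fun h' => hb (Fin.ext h')
      simp [sh, this]
    · intro h'; exact absurd (Finset.mem_univ _) h'
  · rename_i h
    apply Finset.sum_eq_zero
    intro b _
    have : ¬ b.val = i.val + s := by
      have := b.isLt
      omega
    simp [sh, this]

theorem sh_succ (s : ℕ) : sh C n 1 * sh C n s = sh C n (s + 1) := by
  ext i j
  rw [sh_mul]
  split
  · rename_i h
    simp only [sh]
    congr 1
    rw [eq_iff_iff]
    constructor <;> intro h' <;> omega
  · rename_i h
    have : ¬ j.val = i.val + (s + 1) := by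
      have := j.isLt
      omega
    simp [sh, this]

theorem sh_pow (s : ℕ) : (sh C n 1) ^ s = sh C n s := by
  induction s with
  | zero => rw [pow_zero, sh_zero]
  | succ s ih => rw [pow_succ', ih, sh_succ]

/-- the second generator: its first column is `0, a_0, …, a_(k-1), 1` -/
def gy {k : ℕ} (a : Fin k → C) : Matrix (Fin (k + 2)) (Fin (k + 2)) C :=
  fun i j => if j = 0 then
    (if i.val = k + 1 then 1 else if h : 0 < i.val ∧ i.val - 1 < k then a ⟨i.val - 1, h.2⟩ else 0)
    else 0

theorem top_gy {k : ℕ} (a : Fin k → C) :
    sh C (k + 2) (k + 1) * gy a = Matrix.single 0 0 1 := by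
  ext i j
  rw [sh_mul, Matrix.single_apply]
  by_cases hi : i = 0
  · subst hi
    by_cases hj : j = 0
    · subst hj
      simp [gy]
    · rw [if_neg (by tauto)]
      simp [gy, hj]
  · rw [if_neg (by tauto), dif_neg]
    have : i.val ≠ 0 := fun h => hi (Fin.ext h)
    omega

theorem single_gy {k : ℕ} (a : Fin k → C) (l : Fin k) :
    Matrix.single (0 : Fin (k + 2)) 0 (1 : C) * (sh C (k + 2) (l.val + 1) * gy a) =
      Matrix.single 0 0 (a l) := by
  ext i j
  by_cases hi : i = 0
  · subst hi
    rw [Matrix.single_mul_apply_same, sh_mul, one_mul, Matrix.single_apply]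
    have hl := l.isLt
    have h1 : (0 : Fin (k + 2)).val + (l.val + 1) < k + 2 := by
      rw [Fin.val_zero]
      omega
    rw [dif_pos h1]
    by_cases hj : j = 0
    · subst hj
      simp only [gy, if_true, and_self]
      rw [if_neg (by simp; omega), dif_pos (by simp)]
      congr 1
      ext
      simp
    · rw [if_neg (by tauto)]
      simp [gy, hj]
  · rw [Matrix.single_mul_apply_of_ne _ _ _ _ _ hi, Matrix.single_apply, if_neg (by tauto)]

end mat

/-- Every finitely generated associative PI algebra over any field embeds into a 2-generated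
associative PI algebra. -/
theorem result (F : Type u) [Field F] (B : Type v) [NonUnitalRing B] [Module F B]
    [IsScalarTower F B B] [SMulCommClass F B B] (hB : IsPI F B) (k : ℕ) (hk : Generated F B k) :
    ∃ (A : Type (max u v)) (_ : NonUnitalRing A) (_ : Module F A) (_ : IsScalarTower F A A)
      (_ : SMulCommClass F A A) (φ : B →ₙₐ[F] A),
      IsPI F A ∧ Generated F A 2 ∧ Function.Injective φ := by
  classical
  obtain ⟨r, f, hf, -, hfB⟩ := hB
  obtain ⟨a, ha⟩ := hk
  obtain ⟨m, α, hm, hα, hMα⟩ := unitization_matrix f hf hfB (Fin (k + 2))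
  let C := Unitization F B
  let M := Matrix (Fin (k + 2)) (Fin (k + 2)) C
  let x : M := sh C (k + 2) 1
  let y : M := gy (fun j => (Unitization.inr (a j) : C))
  let S : NonUnitalSubalgebra F M := NonUnitalAlgebra.adjoin F ({x, y} : Set M)
  have hx : x ∈ S := NonUnitalAlgebra.subset_adjoin F (by simp)
  have hy : y ∈ S := NonUnitalAlgebra.subset_adjoin F (by simp)
  let φ : B →ₙₐ[F] M :=
    { toFun := fun b => Matrix.single 0 0 (Unitization.inr b)
      map_smul' := by
        intro t b
        rw [Unitization.inr_smul]
        exact (Matrix.smul_single t 0 0 _).symm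
      map_zero' := by simp
      map_add' := by
        intro b b'
        rw [Unitization.inr_add, Matrix.single_add]
      map_mul' := by
        intro b b'
        rw [Unitization.inr_mul, Matrix.single_mul_single_same] }
  have hφinj : Function.Injective φ := by
    intro b b' hbb
    have h1 := congrArg (fun X : M => X 0 0) hbb
    exact Unitization.inr_injective ((Matrix.single_apply_same 0 0 (Unitization.inr b)).symm.trans
      (h1.trans (Matrix.single_apply_same 0 0 (Unitization.inr b'))))
  have hsh : ∀ s : ℕ, sh C (k + 2) (s + 1) ∈ S := by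
    intro s
    induction s with
    | zero => exact hx
    | succ s ih =>
      have h1 := mul_mem hx ih
      have h2 : x * sh C (k + 2) (s + 1) = sh C (k + 2) (s + 1 + 1) := sh_succ (s + 1)
      rwa [h2] at h1
  have he : (Matrix.single 0 0 1 : M) ∈ S := by
    rw [← top_gy (fun j => (Unitization.inr (a j) : C))]
    exact mul_mem (hsh k) hy
  have hgen : ∀ j, φ (a j) ∈ S := by
    intro j
    have h1 := single_gy (fun j => (Unitization.inr (a j) : C)) j
    have h2 : φ (a j) = Matrix.single 0 0 (Unitization.inr (a j) : C) := rfl
    rw [h2, ← h1]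
    exact mul_mem he (mul_mem (hsh j.val) hy)
  have hφS : ∀ b, φ b ∈ S := by
    have h1 : NonUnitalAlgebra.adjoin F (Set.range a) ≤ S.comap φ := by
      rw [NonUnitalAlgebra.adjoin_le_iff]
      rintro _ ⟨j, rfl⟩
      exact hgen j
    intro b
    exact h1 (ha ▸ NonUnitalAlgebra.mem_top)
  refine ⟨S, inferInstance, inferInstance, inferInstance, inferInstance,
    NonUnitalAlgHom.codRestrict φ S hφS, ?_, ?_, ?_⟩
  · exact ⟨m, mlp α, mlp_ne_zero α hα, mlp_const hm α, fun b => mlp_sub S hm α hMα b⟩
  · exact adjoin_two x y
  · intro b b' hbb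
    apply hφinj
    exact congrArg Subtype.val hbb

end Pool.Agent.Results.MP_e0d88d_al.AssociativeTwoGenerated
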